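import Pool.Agent.H621.WS.F
import Mathlib.Analysis.InnerProductSpace.PiL2
import Mathlib.MeasureTheory.Measure.Lebesgue.Basic
import Mathlib.Topology.MetricSpace.HausdorffDimension

set_option autoImplicit false

/-!
# The growth exponents of Weyl sums: a set of exponents of positive measure

For `x ∈ [0,1)^d` let `S_d(x; N) = ∑_{n=1}^N exp (2πi (x_1 n + x_2 n^2 + ... + x_d n^d))`, let `σ(x)` be
the infimum of the `s > 0` with `|S_d(x; N)| = O(N^s)`, and let `Ω_α` be the set of the points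
`x ∈ [0,1)^d` with `σ(x) = α`.

**Theorem.** For every `d ≥ 2` and every `α` with `2/3 < α < 1` the Hausdorff dimension of `Ω_α` is
positive. So for every `d ≥ 2` there is a set `A ⊆ [0,1]` of positive Lebesgue measure (the interval
`(2/3, 1)`) such that `dim Ω_α > 0` for all `α ∈ A`: this answers the question, in the affirmative, for
every `d ≥ 2`.

**Sketch.** Let `μ = 1 / (1 - α) > 3`, `n_0 = 2`, `n_{k+1} = ⌈μ n_k⌉`, `ξ = (1/2) ∑_k 2^(-n_k)`. The
points are `x = (x_1, ξ, 0, ..., 0)`, where `x_1` runs through a Cantor set: its binary digits are free at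
the even positions outside of the intervals `(n_k, n_{k+1}/2]`, and zero elsewhere. The map which
compresses the free digits is Hölder continuous, so the Cantor set has positive dimension.

* Upper bound, for every real `x_1`: by Weyl differencing (van der Corput's inequality with all shifts)
  and the rational approximations `ξ ≈ a / 2^(n_k+1)`, `|S(N)|^2 ≤ C (1 + log N) N^(2 - 2/μ)`.
* Lower bound: with `q = 2^(n_k+1)` and `N = 2^⌊n_{k+1}/2⌋`, the phases `x_1 n + ξ n^2` are close to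
  `(b n + a n^2) / q` with `b` even and `a` odd; the Gauss sum of this quadratic polynomial has absolute
  value at least `(2 q)^(1/2)`, and by partial summation some `|S(M)|`, `M ≤ N`, is at least a constant
  times `N / q^(1/2)`, which is about `N^(1 - 1/μ)`.

So `σ(x) = 1 - 1/μ = α`.
-/

namespace Pool.Agent.Results.MP_3c4aa6_nt.PositiveMeasureExponents

/-- The Weyl sum `S_d(x; N) = ∑_{n=1}^N exp (2πi (x_1 n + x_2 n^2 + ... + x_d n^d))`. The coordinate
`x_{j+1}` of the point is `x j`, for `j = 0, ..., d - 1`. -/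
noncomputable def weylSum (d : ℕ) (x : EuclideanSpace ℝ (Fin d)) (N : ℕ) : ℂ :=
  ∑ n ∈ Finset.Icc 1 N,
    Complex.exp (2 * Real.pi * Complex.I * ((∑ j : Fin d, x j * (n : ℝ) ^ ((j : ℕ) + 1) : ℝ) : ℂ))

/-- The growth exponent `σ(x)`: the infimum of the real numbers `s > 0` with
`|S_d(x; N)| = O(N^s)`. -/
noncomputable def growthExponent (d : ℕ) (x : EuclideanSpace ℝ (Fin d)) : ℝ :=
  sInf {s : ℝ | 0 < s ∧ ∃ C : ℝ, ∀ N : ℕ, 1 ≤ N → ‖weylSum d x N‖ ≤ C * (N : ℝ) ^ s}

/-- The set `Ω_α` of the points of `[0,1)^d` with growth exponent `α`. -/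
def Omega (d : ℕ) (α : ℝ) : Set (EuclideanSpace ℝ (Fin d)) :=
  {x | (∀ j, 0 ≤ x j ∧ x j < 1) ∧ growthExponent d x = α}

open Pool.Agent.H621.WS Finset

/-- the points `(x_1, x_2, 0, ..., 0)` -/
noncomputable def pt (m : ℕ) (x₁ x₂ : ℝ) : EuclideanSpace ℝ (Fin (m + 2)) :=
  WithLp.toLp 2 (fun j => if (j : ℕ) = 0 then x₁ else if (j : ℕ) = 1 then x₂ else 0)

lemma weylSum_pt (m : ℕ) (x₁ x₂ : ℝ) (N : ℕ) :
    weylSum (m + 2) (pt m x₁ x₂) N = ∑ n ∈ Icc 1 N, e (x₁ * n + x₂ * (n : ℝ) ^ 2) := by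
  unfold weylSum
  apply sum_congr rfl
  intro n _
  have h1 : (∑ j : Fin (m + 2), (pt m x₁ x₂) j * (n : ℝ) ^ ((j : ℕ) + 1) : ℝ) = x₁ * n + x₂ * (n : ℝ) ^ 2 := by
    rw [Fin.sum_univ_succ, Fin.sum_univ_succ]
    simp [pt]
  rw [h1]
  unfold e
  congr 1
  push_cast
  ring

theorem pos_dimH (d : ℕ) (hd : 2 ≤ d) (α : ℝ) (h1 : 2 / 3 < α) (h2 : α < 1) : 0 < dimH (Omega d α) := by
  obtain ⟨m, rfl⟩ : ∃ m, d = m + 2 := ⟨d - 2, by omega⟩
  set μ : ℝ := 1 / (1 - α) with hμdef
  have hμ : 3 ≤ μ := by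
    rw [hμdef, le_div_iff₀ (by linarith)]
    linarith
  have hα : 1 - 1 / μ = α := by
    rw [hμdef, one_div_one_div]
    ring
  obtain ⟨n, h⟩ := exists_seq μ hμ
  have hn := h.strictMono hμ
  obtain ⟨f, hf, hf0, hP, K, hK, hfK⟩ := exists_positions h hμ
  have hdim := dimH_X_pos hf K hK hfK
  have hsub : Set.range (X f) ⊆ (fun x : EuclideanSpace ℝ (Fin (m + 2)) => x 0) '' Omega (m + 2) α := by
    rintro _ ⟨ω, rfl⟩
    refine ⟨pt m (X f ω) (xi n), ⟨?_, ?_⟩, by simp [pt]⟩
    · intro j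
      have h3 : 0 ≤ X f ω ∧ X f ω < 1 := by
        refine ⟨X_nonneg ω, ?_⟩
        obtain ⟨r, hr0, hr1, hr⟩ := X_split hf ω 0
        have h4 := tail_le (f_strictMono hf) 0
        have h5 : (1 / 2 : ℝ) ^ f 0 ≤ (1 / 2) ^ 2 := half_pow_le hf0
        rw [hr, range_zero, sum_empty]
        norm_num at h5 h4
        linarith
      have h6 := xi_mem hn h.start
      simp only [pt]
      by_cases hj0 : (j : ℕ) = 0
      · simpa [hj0] using h3
      · by_cases hj1 : (j : ℕ) = 1
        · simpa [hj1] using h6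
        · simp [hj0, hj1]
    · rw [← hα, ← sInf_expSet h hμ (x := X f ω) (fun k => good_X_aux hf hP ω k)]
      unfold growthExponent expSet
      simp only [weylSum_pt]
  have hlip : LipschitzWith 1 (fun x : EuclideanSpace ℝ (Fin (m + 2)) => x 0) := by
    apply LipschitzWith.of_dist_le_mul
    intro x y
    rw [NNReal.coe_one, one_mul, EuclideanSpace.dist_eq]
    apply Real.le_sqrt_of_sq_le
    have := Finset.single_le_sum (f := fun i : Fin (m + 2) => dist (x i) (y i) ^ 2) (fun i _ => by positivity)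
      (mem_univ (0 : Fin (m + 2)))
    exact this
  exact hdim.trans_le ((dimH_mono hsub).trans (hlip.dimH_image_le _))

/-- **Main theorem.** For every `d ≥ 2` there is a set `A ⊆ [0,1]` of positive Lebesgue measure,
containing the interval `(2/3, 1)`, such that the Hausdorff dimension of `Ω_α` is positive for all
`α ∈ A`. -/
theorem result : ∀ d : ℕ, 2 ≤ d →
    ∃ A : Set ℝ, A ⊆ Set.Icc 0 1 ∧ MeasurableSet A ∧ 0 < MeasureTheory.volume A ∧
      Set.Ioo (2 / 3) 1 ⊆ A ∧ ∀ α ∈ A, 0 < dimH (Omega d α) := by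
  intro d hd
  refine ⟨Set.Ioo (2 / 3) 1, ?_, measurableSet_Ioo, ?_, subset_rfl, fun α hα => pos_dimH d hd α hα.1 hα.2⟩
  · intro x hx
    exact ⟨by linarith [hx.1], hx.2.le⟩
  · rw [Real.volume_Ioo]
    norm_num

end Pool.Agent.Results.MP_3c4aa6_nt.PositiveMeasureExponents
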